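import Mathlib

/-!
# The argument constant `B(𝔥_α)` equals `1` for every `α ∈ (0, 2/3)`

The extremal functions are `f(z) = z p(z)` with
`p(z) = (1-z)^λ + i ε (1 - (1-z)²)`, `λ = α / (2(1-α))`, `ε > 0` small.
-/

namespace Pool.Agent.Results.MP_84a0b9_an.ArgBoundIsOne

open Complex Metric Filter Topology

/-- The class `𝒢₀` of normalised semi-complete vector fields on the unit disc, in the
Berkson–Porta form: `f` is holomorphic on the disc, `f(0) = 0`, `f'(0) = 1` and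
`Re (f(z)/z) ≥ 0` for `z ≠ 0` in the disc. -/
def G0 : Set (ℂ → ℂ) :=
  {f | DifferentiableOn ℂ f (ball 0 1) ∧ f 0 = 0 ∧ deriv f 0 = 1 ∧
    ∀ z ∈ ball (0 : ℂ) 1, z ≠ 0 → 0 ≤ (f z / z).re}

/-- The class `𝔥_α`: those `f ∈ 𝒢₀` with
`Re [α |z|² f(z)/z + (1-α)(1-|z|²) f'(z)] ≥ 0` on the unit disc. -/
def H (α : ℝ) : Set (ℂ → ℂ) :=
  {f | f ∈ G0 ∧ ∀ z ∈ ball (0 : ℂ) 1,
    0 ≤ (((α * ‖z‖ ^ 2 : ℝ) : ℂ) * (f z / z)
      + (((1 - α) * (1 - ‖z‖ ^ 2) : ℝ) : ℂ) * deriv f z).re}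

/-- `B(𝒢) = (2/π) sup_{f ∈ 𝒢} sup_{z ∈ Δ} |Arg (f(z)/z)|` (the value at `z = 0` is
`Arg f'(0) = 0` and does not contribute). -/
noncomputable def B (G : Set (ℂ → ℂ)) : ℝ :=
  2 / Real.pi * sSup {t : ℝ | ∃ f ∈ G, ∃ z ∈ ball (0 : ℂ) 1, z ≠ 0 ∧ t = |arg (f z / z)|}

/-- the function `p(z) = (1-z)^l + i e (1 - (1-z)²)` -/
noncomputable def p (l e : ℝ) (z : ℂ) : ℂ :=
  (1 - z) ^ (l : ℂ) + (e : ℂ) * (I * (1 - (1 - z) ^ 2))

theorem re_one_sub_pos {z : ℂ} (hz : ‖z‖ < 1) : 0 < (1 - z).re := by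
  have := abs_re_le_norm z
  have h2 := le_abs_self z.re
  simp only [sub_re, one_re]
  linarith

theorem hasDerivAt_p (l e : ℝ) {z : ℂ} (hz : ‖z‖ < 1) :
    HasDerivAt (p l e)
      (-(l : ℂ) * (1 - z) ^ ((l : ℂ) - 1) + (e : ℂ) * (I * (2 * (1 - z)))) z := by
  have hb : HasDerivAt (fun z : ℂ => 1 - z) (-1) z := by
    simpa using (hasDerivAt_id z).const_sub 1
  have hs : (1 - z) ∈ slitPlane := Or.inl (re_one_sub_pos hz)
  have h1 := hb.cpow_const (c := (l : ℂ)) hs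
  have h2 : HasDerivAt (fun z : ℂ => 1 - (1 - z) ^ 2) (2 * (1 - z)) z := by
    have := ((hb.mul hb).const_sub 1).congr_deriv
      (show -(-1 * (1 - z) + (1 - z) * -1) = 2 * (1 - z) by ring)
    refine this.congr_of_eventuallyEq (Eventually.of_forall fun x => ?_)
    simp only [Pi.mul_apply]
    ring
  have h3 := (h2.const_mul I).const_mul (e : ℂ)
  have h4 := h1.add h3
  have e1 : (l : ℂ) * (1 - z) ^ ((l : ℂ) - 1) * -1 + (e : ℂ) * (I * (2 * (1 - z)))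
      = -(l : ℂ) * (1 - z) ^ ((l : ℂ) - 1) + (e : ℂ) * (I * (2 * (1 - z))) := by ring
  rw [e1] at h4
  exact h4

theorem p_zero (l e : ℝ) : p l e 0 = 1 := by
  simp [p]

/-- polar data of `1 - z` -/
theorem polar {z : ℂ} (hz : ‖z‖ < 1) (l : ℝ) :
    ∃ ρ φ : ℝ, 0 < ρ ∧ |φ| < Real.pi / 2 ∧
      1 - z = (ρ : ℂ) * ((Real.cos φ : ℝ) + (Real.sin φ : ℝ) * I) ∧
      (1 - z) ^ (l : ℂ) = ((ρ ^ l : ℝ) : ℂ) *
        ((Real.cos (l * φ) : ℝ) + (Real.sin (l * φ) : ℝ) * I) ∧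
      1 - ‖z‖ ^ 2 = ρ * (2 * Real.cos φ - ρ) := by
  have hre := re_one_sub_pos hz
  have h0 : (1 - z) ≠ 0 := by
    intro h; rw [h] at hre; simp at hre
  refine ⟨‖1 - z‖, arg (1 - z), norm_pos_iff.mpr h0,
    abs_arg_lt_pi_div_two_iff.mpr (Or.inl hre), ?_, ?_, ?_⟩
  · apply Complex.ext
    · rw [re_ofReal_mul]
      simp only [add_re, ofReal_re, mul_re, I_re, mul_zero, ofReal_im, I_im, mul_one, sub_self,
        add_zero]
      rw [cos_arg h0]; field_simp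
    · rw [im_ofReal_mul]
      simp only [add_im, ofReal_im, mul_im, ofReal_re, I_im, mul_one, I_re, mul_zero, add_zero,
        zero_add]
      rw [sin_arg]; field_simp
  · rw [cpow_def_of_ne_zero h0, Complex.log, add_mul, exp_add,
      Real.rpow_def_of_pos (norm_pos_iff.mpr h0)]
    push_cast
    congr 1
    rw [show (arg (1 - z) : ℂ) * I * l = ((l : ℂ) * arg (1 - z)) * I by ring, exp_mul_I]
  · have e1 : ‖z‖ ^ 2 = z.re * z.re + z.im * z.im := by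
      rw [← normSq_eq_norm_sq, normSq_apply]
    have e2 : ‖1 - z‖ ^ 2 = (1 - z).re * (1 - z).re + (1 - z).im * (1 - z).im := by
      rw [← normSq_eq_norm_sq, normSq_apply]
    have e3 : ‖1 - z‖ * Real.cos (arg (1 - z)) = (1 - z).re := by
      rw [cos_arg h0]; field_simp
    have : ‖1 - z‖ * (2 * Real.cos (arg (1 - z)) - ‖1 - z‖)
        = 2 * (‖1 - z‖ * Real.cos (arg (1 - z))) - ‖1 - z‖ ^ 2 := by ring
    rw [this, e3, e1, e2]
    simp only [sub_re, one_re, sub_im, one_im]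
    ring

theorem bound28 {l ρ s c R : ℝ} (hl : 0 < l) (hl1 : l < 1) (hρ : 0 < ρ) (hs : |s| ≤ 1)
    (hsc : |s * c| ≤ 1) (h1 : ρ ≤ 2 * R) (h2 : ρ ^ 2 ≤ 4 * R) :
    |(1 - 2 * l) * 2 * ρ ^ 2 * (s * c) - 2 * ρ * s + 4 * ρ ^ 2 * (s * c)| ≤ 28 * R := by
  have c1 : |(1 - 2 * l) * 2 * ρ ^ 2 * (s * c)| ≤ 2 * ρ ^ 2 := by
    rw [abs_mul, abs_mul, abs_mul, abs_of_pos (by norm_num : (0 : ℝ) < 2),
      abs_of_nonneg (sq_nonneg ρ)]
    have : |1 - 2 * l| ≤ 1 := by rw [abs_le]; constructor <;> linarith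
    calc |1 - 2 * l| * 2 * ρ ^ 2 * |s * c| ≤ 1 * 2 * ρ ^ 2 * 1 := by gcongr
      _ = 2 * ρ ^ 2 := by ring
  have c2 : |2 * ρ * s| ≤ 2 * ρ := by
    rw [abs_mul, abs_of_pos (by positivity : 0 < 2 * ρ)]
    calc 2 * ρ * |s| ≤ 2 * ρ * 1 := by gcongr
      _ = 2 * ρ := by ring
  have c3 : |4 * ρ ^ 2 * (s * c)| ≤ 4 * ρ ^ 2 := by
    rw [abs_mul, abs_of_nonneg (by positivity : 0 ≤ 4 * ρ ^ 2)]
    calc 4 * ρ ^ 2 * |s * c| ≤ 4 * ρ ^ 2 * 1 := by gcongr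
      _ = 4 * ρ ^ 2 := by ring
  calc |(1 - 2 * l) * 2 * ρ ^ 2 * (s * c) - 2 * ρ * s + 4 * ρ ^ 2 * (s * c)|
      ≤ |(1 - 2 * l) * 2 * ρ ^ 2 * (s * c) - 2 * ρ * s| + |4 * ρ ^ 2 * (s * c)| :=
        abs_add_le _ _
    _ ≤ |(1 - 2 * l) * 2 * ρ ^ 2 * (s * c)| + |2 * ρ * s| + |4 * ρ ^ 2 * (s * c)| :=
        add_le_add_left (abs_sub _ _) _
    _ ≤ 2 * ρ ^ 2 + 2 * ρ + 4 * ρ ^ 2 := by linarith
    _ ≤ 28 * R := by linarith

/-- the pointwise estimates -/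
theorem estimates {l e : ℝ} (hl : 0 < l) (hl1 : l < 1) (he : 0 < e)
    (he1 : 28 * e ≤ (1 - l) * Real.cos (l * (Real.pi / 2))) {z : ℂ} (hz : ‖z‖ < 1) :
    0 < (p l e z).re ∧
    0 ≤ (2 * l * ‖z‖ ^ 2 + (1 - ‖z‖ ^ 2)) * (p l e z).re
      + (1 - ‖z‖ ^ 2) * (z * (-(l : ℂ) * (1 - z) ^ ((l : ℂ) - 1)
          + (e : ℂ) * (I * (2 * (1 - z))))).re := by
  have hpi := Real.pi_pos
  obtain ⟨ρ, φ, hρ, hφ, hz1, hz2, hz3⟩ := polar hz l
  have hφ' := abs_lt.mp hφ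
  have h0 : (1 - z) ≠ 0 := by
    intro h; have := re_one_sub_pos hz; rw [h] at this; simp at this
  obtain ⟨c, hc⟩ : ∃ c : ℝ, c = Real.cos φ := ⟨_, rfl⟩
  obtain ⟨s, hs⟩ : ∃ s : ℝ, s = Real.sin φ := ⟨_, rfl⟩
  obtain ⟨C, hC⟩ : ∃ C : ℝ, C = Real.cos (l * φ) := ⟨_, rfl⟩
  obtain ⟨S, hS⟩ : ∃ S : ℝ, S = Real.sin (l * φ) := ⟨_, rfl⟩
  obtain ⟨k, hk⟩ : ∃ k : ℝ, k = Real.cos (l * (Real.pi / 2)) := ⟨_, rfl⟩
  obtain ⟨q, hq⟩ : ∃ q : ℝ, q = 1 - ‖z‖ ^ 2 := ⟨_, rfl⟩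
  have hcs : c ^ 2 + s ^ 2 = 1 := by rw [hc, hs]; exact Real.cos_sq_add_sin_sq φ
  have hCpos : k ≤ C := by
    rw [hC, hk, ← Real.cos_abs (l * φ)]
    apply Real.cos_le_cos_of_nonneg_of_le_pi (abs_nonneg _)
    · nlinarith
    · rw [abs_mul, abs_of_pos hl]; nlinarith
  have hk0 : 0 < k := by
    rw [hk]
    exact Real.cos_pos_of_mem_Ioo ⟨by nlinarith, by nlinarith⟩
  have hk1 : k ≤ 1 := by rw [hk]; exact Real.cos_le_one _
  have hc0 : 0 < c := by rw [hc]; exact Real.cos_pos_of_mem_Ioo ⟨by linarith, by linarith⟩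
  have hc1 : c ≤ 1 := by rw [hc]; exact Real.cos_le_one _
  have hs1 : |s| ≤ 1 := by rw [hs]; exact Real.abs_sin_le_one _
  have hqpos : 0 < q := by
    rw [hq]; nlinarith [norm_nonneg z]
  have hq1 : q ≤ 1 := by rw [hq]; nlinarith [norm_nonneg z]
  have hq2 : q = ρ * (2 * c - ρ) := by rw [hq, hz3, hc]
  have hρc : 0 < 2 * c - ρ := by
    rw [hq2] at hqpos
    exact (pos_iff_pos_of_mul_pos hqpos).mp hρ
  have hρ2 : ρ < 2 := by linarith
  have hρl : 0 < ρ ^ l := Real.rpow_pos_of_pos hρ l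
  have hρ1 : ρ ≤ 2 * ρ ^ l := by
    have e1 : ρ = ρ ^ (1 - l) * ρ ^ l := by
      rw [← Real.rpow_add hρ]; simp
    have e2 : ρ ^ (1 - l) ≤ 2 := by
      calc ρ ^ (1 - l) ≤ (2 : ℝ) ^ (1 - l) :=
            Real.rpow_le_rpow hρ.le hρ2.le (by linarith)
        _ ≤ (2 : ℝ) ^ (1 : ℝ) := Real.rpow_le_rpow_of_exponent_le (by norm_num) (by linarith)
        _ = 2 := by norm_num
    calc ρ = ρ ^ (1 - l) * ρ ^ l := e1
      _ ≤ 2 * ρ ^ l := mul_le_mul_of_nonneg_right e2 hρl.le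
  have hρsq : ρ ^ 2 ≤ 4 * ρ ^ l := by nlinarith
  -- sin and cos of (1 - l) φ
  have hs' : 0 ≤ s * (s * C - c * S) := by
    have hexp : Real.sin ((1 - l) * φ) = s * C - c * S := by
      rw [hs, hC, hc, hS, ← Real.sin_sub]; congr 1; ring
    rw [← hexp, hs]
    rcases le_total 0 φ with h | h
    · exact mul_nonneg (Real.sin_nonneg_of_nonneg_of_le_pi h (by linarith))
        (Real.sin_nonneg_of_nonneg_of_le_pi (mul_nonneg (by linarith) h) (by nlinarith))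
    · exact mul_nonneg_of_nonpos_of_nonpos
        (Real.sin_nonpos_of_nonpos_of_neg_pi_le h (by linarith))
        (Real.sin_nonpos_of_nonpos_of_neg_pi_le
          (mul_nonpos_of_nonneg_of_nonpos (by linarith) h) (by nlinarith))
  have hc' : c ≤ c * C + s * S := by
    have hexp : Real.cos ((1 - l) * φ) = c * C + s * S := by
      rw [hs, hC, hc, hS, ← Real.cos_sub]; congr 1; ring
    rw [← hexp, hc, ← Real.cos_abs φ, ← Real.cos_abs ((1 - l) * φ)]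
    apply Real.cos_le_cos_of_nonneg_of_le_pi (abs_nonneg _) (by linarith)
    rw [abs_mul, abs_of_pos (by linarith : (0 : ℝ) < 1 - l)]
    nlinarith [abs_nonneg φ]
  -- real parts
  have hre1 : (p l e z).re = ρ ^ l * C + e * (2 * ρ ^ 2 * s * c) := by
    rw [p, hz2, hz1, ← hc, ← hs, ← hC, ← hS, pow_two]
    simp only [add_re, mul_re, ofReal_re, ofReal_im, I_re, I_im, sub_re, sub_im, one_re, one_im,
      add_im, mul_im]
    ring
  have hre2 : (z * (-(l : ℂ) * (1 - z) ^ ((l : ℂ) - 1)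
          + (e : ℂ) * (I * (2 * (1 - z))))).re
      = -l * ρ ^ l * ((c * C + s * S) / ρ - C)
        + e * (-2 * ρ * s + 4 * ρ ^ 2 * s * c) := by
    have e1 : z * (-(l : ℂ) * (1 - z) ^ ((l : ℂ) - 1) + (e : ℂ) * (I * (2 * (1 - z))))
        = -(l : ℂ) * ((1 - z) ^ (l : ℂ) * (1 / (1 - z) - 1))
          + (e : ℂ) * (I * (2 * (1 - (1 - z)) * (1 - z))) := by
      rw [cpow_sub _ _ h0, cpow_one]
      field_simp
      ring
    have e2 : 1 / (1 - z) = ((1 / ρ : ℝ) : ℂ) * ((c : ℂ) - (s : ℂ) * I) := by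
      rw [div_eq_iff h0]
      conv_rhs => rw [hz1, ← hc, ← hs]
      have hρc : (ρ : ℂ) ≠ 0 := by exact_mod_cast hρ.ne'
      have hcs' : (c : ℂ) ^ 2 + (s : ℂ) ^ 2 = 1 := by exact_mod_cast hcs
      push_cast
      field_simp
      linear_combination (-(1 : ℂ)) * hcs' + (s : ℂ) ^ 2 * I_sq
    rw [e1, e2, hz2, hz1, ← hc, ← hs, ← hC, ← hS]
    simp only [add_re, mul_re, ofReal_re, ofReal_im, I_re, I_im, sub_re, sub_im, one_re, one_im,
      add_im, mul_im, neg_re, neg_im, re_ofNat, im_ofNat]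
    field_simp
    ring
  rw [hre1, hre2, ← hq, show ‖z‖ ^ 2 = 1 - q by rw [hq]; ring]
  rw [← hk] at he1
  have hsc := abs_le.mp hs1
  have he2 : 28 * e ≤ k := by nlinarith
  have hR : ρ ^ l * k ≤ ρ ^ l * C := mul_le_mul_of_nonneg_left hCpos hρl.le
  have habs : |s * c| ≤ 1 := by
    rw [abs_mul, abs_of_pos hc0]; nlinarith [abs_nonneg s]
  have habs' := abs_le.mp habs
  constructor
  · have h1 : -(ρ ^ 2) ≤ ρ ^ 2 * (s * c) := by nlinarith [sq_nonneg ρ]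
    have h2 : e * ρ ^ 2 ≤ e * (4 * ρ ^ l) := mul_le_mul_of_nonneg_left hρsq he.le
    have h3 : ρ ^ l * (28 * e) ≤ ρ ^ l * k := mul_le_mul_of_nonneg_left he2 hρl.le
    have h4 : 0 < e * ρ ^ l := mul_pos he hρl
    have h5 : e * (-(ρ ^ 2)) ≤ e * (ρ ^ 2 * (s * c)) := mul_le_mul_of_nonneg_left h1 he.le
    nlinarith
  · have hid : (2 * l * (1 - q) + q) * (ρ ^ l * C + e * (2 * ρ ^ 2 * s * c))
        + q * (-l * ρ ^ l * ((c * C + s * S) / ρ - C) + e * (-2 * ρ * s + 4 * ρ ^ 2 * s * c))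
        = ρ ^ l * ((1 - l) * q * C) + ρ ^ l * (l * (2 * (s * (s * C - c * S))))
          + ρ ^ l * (l * ρ * (c * C + s * S))
          + e * (4 * l * ρ ^ 2 * (s * c)) 
          + e * q * ((1 - 2 * l) * 2 * ρ ^ 2 * (s * c) - 2 * ρ * s + 4 * ρ ^ 2 * (s * c)) := by
      have e3 : q * (-l * ρ ^ l * ((c * C + s * S) / ρ - C))
          = -l * ρ ^ l * ((2 * c - ρ) * (c * C + s * S) - q * C) := by
        rw [hq2]; field_simp
      have : (2 * l * (1 - q) + q) * (ρ ^ l * C + e * (2 * ρ ^ 2 * s * c))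
        + q * (-l * ρ ^ l * ((c * C + s * S) / ρ - C) + e * (-2 * ρ * s + 4 * ρ ^ 2 * s * c))
        = (2 * l * (1 - q) + q) * (ρ ^ l * C + e * (2 * ρ ^ 2 * s * c))
        + q * (-l * ρ ^ l * ((c * C + s * S) / ρ - C))
        + q * (e * (-2 * ρ * s + 4 * ρ ^ 2 * s * c)) := by ring
      rw [this, e3]
      linear_combination (-2 * l * ρ ^ l * C) * hcs
    rw [hid]
    have t1 : ρ ^ l * ((1 - l) * q * k) ≤ ρ ^ l * ((1 - l) * q * C) :=
      mul_le_mul_of_nonneg_left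
        (mul_le_mul_of_nonneg_left hCpos (mul_nonneg (by linarith) hqpos.le)) hρl.le
    have t2 : 0 ≤ ρ ^ l * (l * (2 * (s * (s * C - c * S)))) := by positivity
    have t3 : ρ ^ l * (l * ρ * c) ≤ ρ ^ l * (l * ρ * (c * C + s * S)) :=
      mul_le_mul_of_nonneg_left
        (mul_le_mul_of_nonneg_left hc' (by positivity)) hρl.le
    have t4 : -(ρ ^ l * (l * ρ * c)) ≤ e * (4 * l * ρ ^ 2 * (s * c)) := by
      have a1 : -c ≤ s * c := by nlinarith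
      have a2 : 4 * l * ρ ^ 2 * (-c) ≤ 4 * l * ρ ^ 2 * (s * c) :=
        mul_le_mul_of_nonneg_left a1 (by positivity)
      have a3 : e * (4 * l * ρ ^ 2 * (-c)) ≤ e * (4 * l * ρ ^ 2 * (s * c)) :=
        mul_le_mul_of_nonneg_left a2 he.le
      have a4 : 4 * e * ρ ≤ ρ ^ l := by
        have : 4 * e * ρ ≤ 4 * e * (2 * ρ ^ l) := mul_le_mul_of_nonneg_left hρ1 (by linarith)
        nlinarith
      have a5 : 4 * e * ρ * (l * ρ * c) ≤ ρ ^ l * (l * ρ * c) :=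
        mul_le_mul_of_nonneg_right a4 (by positivity)
      linarith
    have t5 : -(e * q * (28 * ρ ^ l)) ≤
        e * q * ((1 - 2 * l) * 2 * ρ ^ 2 * (s * c) - 2 * ρ * s + 4 * ρ ^ 2 * (s * c)) := by
      have b1 := bound28 hl hl1 hρ hs1 habs hρ1 hρsq
      have b2 := (abs_le.mp b1).1
      have b3 : e * q * (-(28 * ρ ^ l)) ≤
        e * q * ((1 - 2 * l) * 2 * ρ ^ 2 * (s * c) - 2 * ρ * s + 4 * ρ ^ 2 * (s * c)) :=
        mul_le_mul_of_nonneg_left b2 (by positivity)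
      linarith
    have t6 : e * q * (28 * ρ ^ l) ≤ ρ ^ l * ((1 - l) * q * k) := by
      have : (28 * e) * (q * ρ ^ l) ≤ ((1 - l) * k) * (q * ρ ^ l) :=
        mul_le_mul_of_nonneg_right he1 (by positivity)
      linarith
    linarith

/-- the test function lies in `𝔥_α` -/
theorem mem_H {α l e : ℝ} (hα : 0 < α) (hα1 : α < 2 / 3) (hl : l = α / (2 * (1 - α)))
    (he : 0 < e) (he1 : 28 * e ≤ (1 - l) * Real.cos (l * (Real.pi / 2))) :
    (fun z => z * p l e z) ∈ H α := by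
  have hα2 : 0 < 1 - α := by linarith
  have hl0 : 0 < l := by rw [hl]; positivity
  have hl1 : l < 1 := by rw [hl, div_lt_one (by positivity)]; linarith
  have hlα : 2 * l * (1 - α) = α := by rw [hl]; field_simp
  have hder : ∀ z : ℂ, ‖z‖ < 1 → HasDerivAt (fun z => z * p l e z)
      (p l e z + z * (-(l : ℂ) * (1 - z) ^ ((l : ℂ) - 1) + (e : ℂ) * (I * (2 * (1 - z))))) z := by
    intro z hz
    have := (hasDerivAt_id' z).fun_mul (hasDerivAt_p l e hz)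
    rw [one_mul] at this
    exact this
  have hdiv : ∀ z : ℂ, z ≠ 0 → z * p l e z / z = p l e z := by
    intro z hz; field_simp
  refine ⟨⟨?_, by simp, ?_, ?_⟩, ?_⟩
  · intro z hz
    exact (hder z (by simpa using hz)).differentiableAt.differentiableWithinAt
  · rw [(hder 0 (by simp)).deriv]; simp [p_zero]
  · intro z hz hz0
    simp only
    rw [hdiv z hz0]
    exact (estimates hl0 hl1 he he1 (by simpa using hz)).1.le
  · intro z hz
    have hz' : ‖z‖ < 1 := by simpa using hz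
    have hest := (estimates hl0 hl1 he he1 hz').2
    rw [(hder z hz').deriv]
    have e1 : ((α * ‖z‖ ^ 2 : ℝ) : ℂ) * (z * p l e z / z)
        = ((α * ‖z‖ ^ 2 : ℝ) : ℂ) * p l e z := by
      by_cases h : z = 0
      · simp [h]
      · rw [hdiv z h]
    rw [e1, add_re, re_ofReal_mul, re_ofReal_mul, add_re]
    have h2 := mul_nonneg hα2.le hest
    have e2 : α * ‖z‖ ^ 2 * (p l e z).re + (1 - α) * (1 - ‖z‖ ^ 2) * ((p l e z).re
        + (z * (-(l : ℂ) * (1 - z) ^ ((l : ℂ) - 1) + (e : ℂ) * (I * (2 * (1 - z))))).re)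
        = (1 - α) * ((2 * l * ‖z‖ ^ 2 + (1 - ‖z‖ ^ 2)) * (p l e z).re
      + (1 - ‖z‖ ^ 2) * (z * (-(l : ℂ) * (1 - z) ^ ((l : ℂ) - 1)
          + (e : ℂ) * (I * (2 * (1 - z))))).re) := by
      linear_combination (-(‖z‖ ^ 2 * (p l e z).re)) * hlα
    rw [e2]
    exact h2

/-- **Answer to Q1.** `B(𝔥_α) = 1` for every `α ∈ (0, 2/3)`. -/
theorem result : ∀ α : ℝ, 0 < α → α < 2 / 3 → B (H α) = 1 := by
  intro α hα hα1
  have hpi := Real.pi_pos
  have hα2 : 0 < 1 - α := by linarith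
  obtain ⟨l, hl⟩ : ∃ l : ℝ, l = α / (2 * (1 - α)) := ⟨_, rfl⟩
  have hl0 : 0 < l := by rw [hl]; positivity
  have hl1 : l < 1 := by rw [hl, div_lt_one (by positivity)]; linarith
  have hk : 0 < Real.cos (l * (Real.pi / 2)) :=
    Real.cos_pos_of_mem_Ioo ⟨by nlinarith, by nlinarith⟩
  obtain ⟨e, he⟩ : ∃ e : ℝ, e = (1 - l) * Real.cos (l * (Real.pi / 2)) / 28 := ⟨_, rfl⟩
  have he0 : 0 < e := by
    rw [he]; have : 0 < 1 - l := by linarith
    positivity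
  have hmem := mem_H hα hα1 hl he0 (by rw [he]; linarith)
  set T := {t : ℝ | ∃ f ∈ H α, ∃ z ∈ ball (0 : ℂ) 1, z ≠ 0 ∧ t = |arg (f z / z)|} with hT
  have hbdd : ∀ t ∈ T, t ≤ Real.pi / 2 := by
    rintro t ⟨f, hf, z, hz, hz0, rfl⟩
    rw [abs_arg_le_pi_div_two_iff]
    exact hf.1.2.2.2 z hz hz0
  have hBdd : BddAbove T := ⟨_, hbdd⟩
  have hval : ∀ r : ℝ, 0 < r → r < 1 → |arg (p l e r)| ∈ T := by
    intro r hr hr1
    refine ⟨_, hmem, (r : ℂ), ?_, ?_, ?_⟩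
    · simp [abs_of_pos hr, hr1]
    · exact_mod_cast hr.ne'
    · have : (r : ℂ) ≠ 0 := by exact_mod_cast hr.ne'
      rw [mul_div_cancel_left₀ _ this]
  have hne : T.Nonempty := ⟨_, hval (1 / 2) (by norm_num) (by norm_num)⟩
  have hle : sSup T ≤ Real.pi / 2 := csSup_le hne hbdd
  have hge : Real.pi / 2 ≤ sSup T := by
    have hlim : Tendsto (fun r : ℝ => p l e r) (𝓝[<] (1 : ℝ)) (𝓝 ((e : ℂ) * I)) := by
      have h1 : Tendsto (fun r : ℝ => (((1 - r) ^ l : ℝ) : ℂ)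
          + (e : ℂ) * (I * (1 - (1 - (r : ℂ)) ^ 2))) (𝓝[<] (1 : ℝ)) (𝓝 ((e : ℂ) * I)) := by
        have hcont : Continuous (fun r : ℝ => (((1 - r) ^ l : ℝ) : ℂ)
          + (e : ℂ) * (I * (1 - (1 - (r : ℂ)) ^ 2))) := by
          have : Continuous (fun r : ℝ => (1 - r) ^ l) :=
            (continuous_const.sub continuous_id).rpow_const (fun _ => Or.inr hl0.le)
          fun_prop
        have := (hcont.tendsto 1).mono_left (nhdsWithin_le_nhds (s := Set.Iio (1 : ℝ)))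
        simpa [Real.zero_rpow hl0.ne'] using this
      refine h1.congr' ?_
      filter_upwards [self_mem_nhdsWithin] with r hr
      rw [p]
      congr 1
      rw [ofReal_cpow (by simp at hr; linarith)]
      push_cast
      rfl
    have hslit : ((e : ℂ) * I) ∈ slitPlane := by
      right
      simp [he0.ne']
    have hlim2 : Tendsto (fun r : ℝ => |arg (p l e r)|) (𝓝[<] (1 : ℝ)) (𝓝 (Real.pi / 2)) := by
      have := ((continuousAt_arg hslit).tendsto.comp hlim).abs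
      have e1 : |arg ((e : ℂ) * I)| = Real.pi / 2 := by
        rw [arg_real_mul _ he0, arg_I, abs_of_pos (by positivity)]
      rw [e1] at this
      exact this
    refine le_of_tendsto hlim2 ?_
    have hIoo : Set.Ioo (0 : ℝ) 1 ∈ 𝓝[<] (1 : ℝ) := Ioo_mem_nhdsLT (by norm_num)
    filter_upwards [hIoo] with r hr
    exact le_csSup hBdd (hval r hr.1 hr.2)
  have heq : sSup T = Real.pi / 2 := le_antisymm hle hge
  rw [B, ← hT, heq]
  field_simp

end Pool.Agent.Results.MP_84a0b9_an.ArgBoundIsOne
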